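import Pool.Agent.R591.UL.Fin

/-!
# MP_57a173_lc under CH

If CH holds, then on every set `E` of cardinality `𝔠` there is a sequence of subsets over which
the Borel hierarchy has length `ω₁` while every projective set is Borel.
-/

set_option autoImplicit false

namespace Pool.Agent.Results.MP_57a173_lc.CHLongBorelProjective

open Set MeasureTheory
open scoped Ordinal

/-- `X` is Borel over `A`. -/
def Bor {E : Type} (A : ℕ → Set E) (X : Set E) : Prop :=
  MeasurableSet[MeasurableSpace.generateFrom (Set.range A)] X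

/-- finite Boolean combinations of the sets `A n` -/
inductive BoolComb {E : Type} (A : ℕ → Set E) : Set E → Prop
  | basic (n : ℕ) : BoolComb A (A n)
  | compl (X : Set E) : BoolComb A X → BoolComb A Xᶜ
  | union (X Y : Set E) : BoolComb A X → BoolComb A Y → BoolComb A (X ∪ Y)

/-- The class `Σ_α` over `A`: for `α = 0` the Boolean combinations, for `α > 0` the countable
unions of complements of sets in `⋃_{β<α} Σ_β`. -/
inductive SigC {E : Type} (A : ℕ → Set E) : Ordinal.{0} → Set E → Prop
  | zero (X : Set E) : BoolComb A X → SigC A 0 X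
  | step (α : Ordinal.{0}) (hα : 0 < α) (ι : Type) (hι : Countable ι) (f : ι → Set E)
      (β : ι → Ordinal.{0}) (hβ : ∀ i, β i < α) (hf : ∀ i, SigC A (β i) (f i)) :
      SigC A α (⋃ i, (f i)ᶜ)

/-- The sets of projective class `j` for some `1 ≤ j ≤ k` over `A`. -/
def ProjLE {E : Type} (A : ℕ → Set E) : ℕ → Set (Set E)
  | 0 => ∅
  | 1 => {X | ∃ W : Set (E × E),
      MeasurableSet[MeasurableSpace.generateFrom {R | ∃ m n, R = A m ×ˢ A n}] W ∧
      X = Prod.fst '' W}
  | k + 2 => ProjLE A (k + 1) ∪ {X | ∃ W : Set (E × E),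
      MeasurableSet[MeasurableSpace.generateFrom {R | ∃ P Q : Set E,
        (Bor A P ∨ P ∈ ProjLE A (k + 1)) ∧ (Bor A Q ∨ Q ∈ ProjLE A (k + 1)) ∧ R = P ×ˢ Q}] W ∧
      X = Prod.fst '' W}

theorem result (CH : (Cardinal.continuum : Cardinal.{0}) = Cardinal.aleph 1)
    (E : Type) (hE : Cardinal.mk E = Cardinal.continuum) :
    ∃ A : ℕ → Set E,
      (∀ α < ω₁, ∃ X : Set E, Bor A X ∧ ¬ SigC A α X) ∧
      (∀ k, ∀ X ∈ ProjLE A k, Bor A X) := by
  classical
  obtain ⟨I, _, ⟨S⟩⟩ := R591.UL.exists_sys CH E hE
  refine ⟨S.AA, ?_, ?_⟩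
  · -- unbounded classes
    have hB : ∀ X, BoolComb S.AA X → ∃ n : ℕ,
        S.Coded ((2 + ω + ω + ω) + ω * (n : Ordinal.{0})) X := by
      intro X hX
      have hstep : ∀ n : ℕ, (2 + ω + ω + ω) + ω * (n : Ordinal.{0}) + ω =
          (2 + ω + ω + ω) + ω * ((n + 1 : ℕ) : Ordinal.{0}) := by
        intro n
        rw [Nat.cast_succ, mul_add, mul_one, add_assoc]
      induction hX with
      | basic n => exact ⟨0, by simpa using S.coded_AA n⟩
      | compl X _ ih =>
        obtain ⟨n, hn⟩ := ih
        exact ⟨n + 1, by rw [← hstep]; exact hn.compl⟩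
      | union X Y _ _ ih1 ih2 =>
        obtain ⟨n, hn⟩ := ih1
        obtain ⟨m, hm⟩ := ih2
        have h1 : ∀ {a b : ℕ}, a ≤ b → (2 + ω + ω + ω) + ω * (a : Ordinal.{0}) ≤
            (2 + ω + ω + ω) + ω * (b : Ordinal.{0}) := by
          intro a b hab
          exact add_le_add_right (mul_le_mul_right (Nat.cast_le.2 hab) _) _
        refine ⟨max n m + 1 + 1, ?_⟩
        rw [← hstep, ← hstep]
        exact (hn.mono (h1 (le_max_left _ _))).union (hm.mono (h1 (le_max_right _ _)))
    have hbound : ∀ α : Ordinal.{0}, α < ω₁ → ∃ γ < ω₁, ∀ X, SigC S.AA α X → S.Coded γ X := by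
      intro α
      induction α using WellFoundedLT.induction with
      | ind α ih =>
        intro hα
        have ih' : ∀ β : Set.Iio α, ∃ γ < ω₁, ∀ X, SigC S.AA β X → S.Coded γ X :=
          fun β => ih β β.2 (lt_trans β.2 hα)
        choose G hG1 hG2 using ih'
        have hc : Countable (Set.Iio α) := (R591.UL.countable_Iio' hα).to_subtype
        obtain ⟨δ, hδ1, hδ2⟩ := R591.UL.bound_countable (Set.countable_range G) (by
          rintro _ ⟨β, rfl⟩; exact hG1 β)
        -- a common bound
        set κ : Ordinal.{0} := (2 + ω + ω + ω) + ω * ω with hκ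
        have hω := R591.UL.omega0_lt_omega1
        have hκ1 : (2 + ω + ω + ω : Ordinal.{0}) < ω₁ :=
          R591.UL.add_lt_omega1 (R591.UL.add_lt_omega1 (R591.UL.add_lt_omega1
            R591.UL.two_lt_omega1 hω) hω) hω
        have hωω : (ω * ω : Ordinal.{0}) < ω₁ :=
          Ordinal.isPrincipal_mul_omega 1 hω hω
        have hκ2 : κ < ω₁ := R591.UL.add_lt_omega1 hκ1 hωω
        refine ⟨max κ (max δ (2 + ω + ω + ω) + ω), max_lt hκ2
          (R591.UL.add_lt_omega1 (max_lt hδ1 hκ1) hω), ?_⟩
        intro X hX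
        cases hX with
        | zero X hX =>
          obtain ⟨n, hn⟩ := hB X hX
          refine hn.mono (le_trans ?_ (le_max_left _ _))
          exact add_le_add_right (mul_le_mul_right (Ordinal.natCast_lt_omega0 n).le _) _
        | step _ h0 ι hι f β hβ hf =>
          refine R591.UL.Sys.Coded.mono (γ := max δ (2 + ω + ω + ω) + ω) ?_ (le_max_right _ _)
          have h1 : ∀ i, S.Coded (max δ (2 + ω + ω + ω)) (f i) := fun i =>
            (hG2 ⟨β i, hβ i⟩ (f i) (hf i)).mono ((hδ2 _ ⟨_, rfl⟩).trans (le_max_left _ _))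
          rcases isEmpty_or_nonempty ι with h2 | h2
          · have h3 := R591.UL.Sys.Coded.iUnion_compl (S := S) (f := fun _ : ℕ => Set.univ)
              (γ := max δ (2 + ω + ω + ω)) (fun _ => S.coded_univ.mono
                (le_trans le_self_add (le_max_right _ _)))
            simpa using h3
          · obtain ⟨e, he⟩ := exists_surjective_nat ι
            have h3 := R591.UL.Sys.Coded.iUnion_compl (S := S) (f := fun n => f (e n))
              (fun n => h1 (e n))
            have h4 : (⋃ i, (f i)ᶜ) = ⋃ n, (f (e n))ᶜ := by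
              ext x
              simp only [mem_iUnion]
              constructor
              · rintro ⟨i, hi⟩
                obtain ⟨n, rfl⟩ := he i
                exact ⟨n, hi⟩
              · rintro ⟨n, hn⟩
                exact ⟨_, hn⟩
            rw [h4]; exact h3
    intro α hα
    obtain ⟨γ, hγ, h⟩ := hbound α hα
    obtain ⟨X, hX1, hX2⟩ := S.exists_not_coded γ hγ
    refine ⟨X, ?_, fun h' => hX2 (h X h')⟩
    unfold Bor
    rw [S.gen_AA]; exact hX1
  · -- projective sets are Borel
    let M : MeasurableSpace E := S.mE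
    have hBor : ∀ X, Bor S.AA X ↔ MeasurableSet X := by
      intro X
      unfold Bor
      rw [S.gen_AA]
    have hproj : ∀ W : Set (E × E), MeasurableSet W → MeasurableSet (Prod.fst '' W) := by
      intro W hW
      have h1 : Measurable (fun x : Fin 2 → E => (x 0, x 1)) :=
        (measurable_pi_apply 0).prodMk (measurable_pi_apply 1)
      have h2 := S.proj 1 _ (h1 hW)
      have h3 : Measurable (fun (e : E) => (fun _ : Fin 1 => e)) :=
        measurable_pi_iff.2 fun _ => measurable_id
      have h4 := h3 h2
      convert h4 using 1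
      ext x
      simp only [mem_image, Prod.exists, exists_and_right, exists_eq_right, mem_preimage,
        mem_ofPred_eq]
      rfl
    have hA : ∀ n, MeasurableSet (S.AA n) := fun n => (hBor _).1
      (MeasurableSpace.measurableSet_generateFrom ⟨n, rfl⟩)
    intro k
    induction k using Nat.strong_induction_on with
    | _ k ih =>
      intro X hX
      match k, ih, hX with
      | 0, _, hX => exact absurd hX (notMem_empty X)
      | 1, _, hX =>
        obtain ⟨W, hW, rfl⟩ := hX
        refine (hBor _).2 (hproj W ?_)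
        refine (MeasurableSpace.generateFrom_le ?_ :
          MeasurableSpace.generateFrom {R | ∃ m n, R = S.AA m ×ˢ S.AA n} ≤ Prod.instMeasurableSpace)
          W hW
        rintro _ ⟨m, n, rfl⟩
        exact (hA m).prod (hA n)
      | k + 2, ih, hX =>
        rcases hX with hX | ⟨W, hW, rfl⟩
        · exact ih (k + 1) (by omega) X hX
        · refine (hBor _).2 (hproj W ?_)
          refine (MeasurableSpace.generateFrom_le ?_ :
            MeasurableSpace.generateFrom {R | ∃ P Q : Set E,
              (Bor S.AA P ∨ P ∈ ProjLE S.AA (k + 1)) ∧ (Bor S.AA Q ∨ Q ∈ ProjLE S.AA (k + 1)) ∧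
              R = P ×ˢ Q} ≤ Prod.instMeasurableSpace) W hW
          rintro _ ⟨P, Q, hP, hQ, rfl⟩
          refine MeasurableSet.prod ((hBor _).1 ?_) ((hBor _).1 ?_)
          · exact hP.elim id (fun h => ih (k + 1) (by omega) P h)
          · exact hQ.elim id (fun h => ih (k + 1) (by omega) Q h)

end Pool.Agent.Results.MP_57a173_lc.CHLongBorelProjective
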